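import Pool.Agent.Helper23.MV.StC

/-!
# Project MV (MP_b454d1_nt), module MNB (helper45): minor arcs in a block
-/

set_option autoImplicit false

namespace Pool.Agent.Helper45.MV

open Finset ArithmeticFunction MeasureTheory
open Pool.Agent.Helper48.BK (ex th Sx Apx)
open Pool.Agent.Helper2.MR (ch)
open Pool.Agent.Helper23.GK (cR SS)
open Pool.Agent.Helper23.MV

private lemma ex_add' (s t : ℝ) : ex (s + t) = ex s * ex t := by
  unfold ex
  rw [← Complex.exp_add]
  congr 1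
  push_cast
  ring

private lemma ex_conj' (t : ℝ) : (starRingEnd ℂ) (ex t) = ex (-t) := by
  unfold ex
  rw [← Complex.exp_conj]
  congr 1
  simp only [map_mul, Complex.conj_ofReal, Complex.conj_I, map_ofNat]
  push_cast
  ring

private lemma ex_cont : Continuous ex := by
  unfold ex
  fun_prop

private lemma int_ex' (k : ℤ) : ∫ α in (0 : ℝ)..1, ex ((k : ℝ) * α) = if k = 0 then 1 else 0 := by
  by_cases hk : k = 0
  · subst hk
    simp [ex]
  · rw [if_neg hk]
    have hc : (2 * (Real.pi : ℂ) * (k : ℂ) * Complex.I) ≠ 0 := by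
      have h1 : (Real.pi : ℂ) ≠ 0 := by exact_mod_cast Real.pi_ne_zero
      have h2 : (k : ℂ) ≠ 0 := by exact_mod_cast hk
      exact mul_ne_zero (mul_ne_zero (mul_ne_zero two_ne_zero h1) h2) Complex.I_ne_zero
    have h : ∀ α : ℝ, ex ((k : ℝ) * α) =
        Complex.exp ((2 * (Real.pi : ℂ) * (k : ℂ) * Complex.I) * (α : ℂ)) := by
      intro α
      unfold ex
      congr 1
      push_cast
      ring
    simp_rw [h]
    rw [integral_exp_mul_complex hc]
    have h1 : Complex.exp ((2 * (Real.pi : ℂ) * (k : ℂ) * Complex.I) * ((1 : ℝ) : ℂ)) = 1 := by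
      rw [show (2 * (Real.pi : ℂ) * (k : ℂ) * Complex.I) * ((1 : ℝ) : ℂ) =
        (k : ℂ) * (2 * Real.pi * Complex.I) by push_cast; ring]
      exact Complex.exp_int_mul_two_pi_mul_I k
    rw [h1]
    simp

private lemma pars (s : Finset ℕ) (c : ℕ → ℂ) :
    ∫ α in (0 : ℝ)..1, ‖∑ n ∈ s, c n * ex (n * α)‖ ^ 2 = ∑ n ∈ s, ‖c n‖ ^ 2 := by
  have h1 : ∀ α : ℝ, ((‖∑ n ∈ s, c n * ex (n * α)‖ ^ 2 : ℝ) : ℂ) =
      ∑ n ∈ s, ∑ m ∈ s, c n * (starRingEnd ℂ) (c m) * ex (((n : ℤ) - (m : ℤ) : ℤ) * α) := by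
    intro α
    rw [← Complex.normSq_eq_norm_sq, Complex.normSq_eq_conj_mul_self, mul_comm, map_sum,
      Finset.sum_mul_sum]
    refine Finset.sum_congr rfl fun n _ => Finset.sum_congr rfl fun m _ => ?_
    rw [map_mul, ex_conj']
    have : ex (((n : ℤ) - (m : ℤ) : ℤ) * α) = ex (n * α) * ex (-(m * α)) := by
      rw [← ex_add']
      congr 1
      push_cast
      ring
    rw [this]
    ring
  have h2 : ((∫ α in (0 : ℝ)..1, ‖∑ n ∈ s, c n * ex (n * α)‖ ^ 2 : ℝ) : ℂ) =
      ((∑ n ∈ s, ‖c n‖ ^ 2 : ℝ) : ℂ) := by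
    rw [← intervalIntegral.integral_ofReal]
    simp_rw [h1]
    rw [intervalIntegral.integral_finsetSum]
    · rw [Complex.ofReal_sum]
      refine Finset.sum_congr rfl fun n hn => ?_
      rw [intervalIntegral.integral_finsetSum]
      · simp_rw [intervalIntegral.integral_const_mul, int_ex']
        rw [Finset.sum_eq_single n]
        · rw [sub_self, if_pos rfl, mul_one, Complex.mul_conj, Complex.normSq_eq_norm_sq]
        · intro m _ hmn
          rw [if_neg (by omega), mul_zero]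
        · intro h
          exact absurd hn h
      · intro m _
        apply Continuous.intervalIntegrable
        exact continuous_const.mul (ex_cont.comp (continuous_const.mul continuous_id))
    · intro n _
      apply Continuous.intervalIntegrable
      refine continuous_finsetSum _ fun m _ => ?_
      exact continuous_const.mul (ex_cont.comp (continuous_const.mul continuous_id))
  exact_mod_cast h2

private lemma mn_meas (P B : ℝ) : MeasurableSet (mn P B) := by
  have h : mn P B = Set.Icc (0 : ℝ) 1 ∩ ⋂ (q : ℕ) (_ : 1 ≤ q) (_ : (q : ℝ) ≤ P) (a : ℤ),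
      {α : ℝ | B < |α - a / q|} := by
    ext α
    simp [mn]
  rw [h]
  refine measurableSet_Icc.inter (MeasurableSet.iInter fun q => MeasurableSet.iInter fun _ =>
    MeasurableSet.iInter fun _ => MeasurableSet.iInter fun a => ?_)
  exact (isOpen_lt continuous_const (by fun_prop)).measurableSet

private lemma sf_cont (H : ℕ) : Continuous (SfH H) := by
  unfold SfH
  refine continuous_finsetSum _ fun m _ => ?_
  exact continuous_const.mul (ex_cont.comp (continuous_const.mul continuous_id))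

private lemma sg_cont (N₀ H : ℕ) : Continuous (SgH N₀ H) := by
  unfold SgH
  refine continuous_finsetSum _ fun m _ => ?_
  exact continuous_const.mul (ex_cont.comp (continuous_const.mul continuous_id))

private lemma th_le' (m : ℕ) (L : ℝ) (hm : 1 ≤ m) (hL : Real.log m ≤ L) : |th m| ≤ L := by
  have h0 : 0 ≤ Real.log m := Real.log_nonneg (by exact_mod_cast hm)
  unfold th
  split_ifs
  · rw [abs_of_nonneg h0]
    exact hL
  · simpa using h0.trans hL

private lemma sg_sq (N₀ H : ℕ) (hH : 1 ≤ H) (L : ℝ) (hN : 1 ≤ N₀) (hL : Real.log N₀ ≤ L) :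
    ∫ α in (0 : ℝ)..1, ‖SgH N₀ H α‖ ^ 2 ≤ 4 * H * L ^ 2 := by
  have hL0 : 0 ≤ L := le_trans (Real.log_nonneg (by exact_mod_cast hN)) hL
  have h1 : ∀ α, SgH N₀ H α = ∑ m ∈ Icc 1 N₀, (((th m : ℝ) : ℂ) * ((vt N₀ H m : ℝ) : ℂ)) *
      ex (m * α) := fun α => rfl
  simp_rw [h1]
  rw [pars]
  have hHR : (0 : ℝ) < H := by exact_mod_cast hH
  calc ∑ n ∈ Icc 1 N₀, ‖((th n : ℝ) : ℂ) * ((vt N₀ H n : ℝ) : ℂ)‖ ^ 2
      ≤ ∑ n ∈ Icc 1 N₀, (if n ∈ Ioo (N₀ - 4 * H) N₀ then L ^ 2 else 0) := by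
        refine Finset.sum_le_sum fun n hn => ?_
        rw [Finset.mem_Icc] at hn
        have hth : |th n| ≤ L := th_le' n L hn.1
          ((Real.log_le_log (by exact_mod_cast hn.1) (by exact_mod_cast hn.2)).trans hL)
        have hv1 : vt N₀ H n ≤ 1 := max_le zero_le_one (min_le_left _ _)
        have hv0 : 0 ≤ vt N₀ H n := le_max_left _ _
        split_ifs with hi
        · rw [norm_mul, Complex.norm_real, Complex.norm_real, Real.norm_eq_abs, Real.norm_eq_abs,
            abs_of_nonneg hv0]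
          have h3 : |th n| * vt N₀ H n ≤ L := by
            calc |th n| * vt N₀ H n ≤ L * 1 := mul_le_mul hth hv1 hv0 hL0
              _ = L := mul_one L
          have h4 : 0 ≤ |th n| * vt N₀ H n := mul_nonneg (abs_nonneg _) hv0
          exact pow_le_pow_left₀ h4 h3 2
        · have hv : vt N₀ H n = 0 := by
            rw [Finset.mem_Ioo, not_and_or, not_lt, not_lt] at hi
            unfold vt
            apply max_eq_left
            rcases hi with hi | hi
            · have h5 : (n : ℝ) + 4 * H ≤ N₀ := by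
                have : n + 4 * H ≤ N₀ := by omega
                exact_mod_cast this
              refine (min_le_right _ _).trans ((min_le_left _ _).trans ?_)
              exact div_nonpos_of_nonpos_of_nonneg (by linarith) hHR.le
            · have h5 : (N₀ : ℝ) ≤ n := by exact_mod_cast hi
              refine (min_le_right _ _).trans ((min_le_right _ _).trans ?_)
              exact div_nonpos_of_nonpos_of_nonneg (by linarith) hHR.le
          rw [hv]
          simp
    _ = ((Icc 1 N₀).filter (fun n => n ∈ Ioo (N₀ - 4 * H) N₀)).card * L ^ 2 := by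
        rw [← Finset.sum_filter, Finset.sum_const, nsmul_eq_mul]
    _ ≤ 4 * H * L ^ 2 := by
        refine mul_le_mul_of_nonneg_right ?_ (sq_nonneg L)
        have h6 : ((Icc 1 N₀).filter (fun n => n ∈ Ioo (N₀ - 4 * H) N₀)).card ≤ 4 * H := by
          calc ((Icc 1 N₀).filter (fun n => n ∈ Ioo (N₀ - 4 * H) N₀)).card
              ≤ (Ioo (N₀ - 4 * H) N₀).card := Finset.card_le_card (fun n hn =>
                (Finset.mem_filter.mp hn).2)
            _ = N₀ - (N₀ - 4 * H) - 1 := by rw [Nat.card_Ioo]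
            _ ≤ 4 * H := by omega
        exact_mod_cast h6

theorem hMnb : StMin → StBsl → StMnb := by
  rintro ⟨C1, X1, hC1, hX1, hmin⟩ hbsl
  refine ⟨16 * C1 ^ 2, (X1 + 2) ^ 2, by nlinarith, by nlinarith, ?_⟩
  intro X j P hX hP hPX hj
  set H : ℕ := Nat.sqrt X with hH
  have hsq : X1 + 2 ≤ √(X : ℝ) := by
    rw [← Real.sqrt_sq (by linarith : (0 : ℝ) ≤ X1 + 2)]
    exact Real.sqrt_le_sqrt hX
  have hHlow : √(X : ℝ) < (H : ℝ) + 1 := by
    rw [Real.sqrt_lt' (by positivity)]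
    have := Nat.lt_succ_sqrt' X
    rw [← hH] at this
    exact_mod_cast this
  have hHX1 : X1 ≤ (H : ℝ) := by linarith
  have hH2 : (2 : ℝ) ≤ H := hX1.trans hHX1
  have hH2' : 2 ≤ H := by exact_mod_cast hH2
  have hHup : (H : ℝ) ≤ √(X : ℝ) := by
    apply Real.le_sqrt_of_sq_le
    have := Nat.sqrt_le' X
    rw [← hH] at this
    exact_mod_cast this
  have hX4 : (4 : ℝ) ≤ X := by nlinarith
  have hXpos : (0 : ℝ) < X := by linarith
  have hXle : (X : ℝ) ≤ (H : ℝ) ^ 10 := by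
    have h1 : (X : ℝ) ≤ ((H : ℝ) + 1) ^ 2 := by
      have := Nat.lt_succ_sqrt' X
      rw [← hH] at this
      exact_mod_cast this.le
    have h2 : ((H : ℝ) + 1) ^ 2 ≤ 4 * (H : ℝ) ^ 2 := by nlinarith
    have h3 : (4 : ℝ) ≤ (H : ℝ) ^ 8 := by
      calc (4 : ℝ) ≤ 2 ^ 8 := by norm_num
        _ ≤ (H : ℝ) ^ 8 := pow_le_pow_left₀ (by norm_num) hH2 8
    have h4 : 4 * (H : ℝ) ^ 2 ≤ (H : ℝ) ^ 8 * (H : ℝ) ^ 2 :=
      mul_le_mul_of_nonneg_right h3 (sq_nonneg _)
    calc (X : ℝ) ≤ 4 * (H : ℝ) ^ 2 := h1.trans h2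
      _ ≤ (H : ℝ) ^ 8 * (H : ℝ) ^ 2 := h4
      _ = (H : ℝ) ^ 10 := by ring
  have hPH : P ≤ (H : ℝ) ^ (1 / 10 : ℝ) := by
    refine hPX.trans ?_
    calc (X : ℝ) ^ (1 / 100 : ℝ) ≤ ((H : ℝ) ^ 10) ^ (1 / 100 : ℝ) :=
          Real.rpow_le_rpow hXpos.le hXle (by norm_num)
      _ = (H : ℝ) ^ (1 / 10 : ℝ) := by
          rw [← Real.rpow_natCast, ← Real.rpow_mul (by positivity)]
          norm_num
  set N₀ : ℕ := X + j * H with hN0
  have hN0X : N₀ ≤ 2 * X := by omega
  have hX1' : 1 ≤ X := by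
    have : (1 : ℝ) ≤ X := by linarith
    exact_mod_cast this
  have hN01 : 1 ≤ N₀ := by omega
  have hlogX : Real.log 2 ≤ Real.log X := Real.log_le_log (by norm_num) (by linarith)
  have hlog0 : 0 ≤ Real.log X := le_trans (Real.log_nonneg (by norm_num)) hlogX
  have hlogN : Real.log N₀ ≤ 2 * Real.log X := by
    have h1 : (N₀ : ℝ) ≤ 2 * X := by exact_mod_cast hN0X
    calc Real.log N₀ ≤ Real.log (2 * X) := Real.log_le_log (by exact_mod_cast hN01) h1
      _ = Real.log 2 + Real.log X := Real.log_mul (by norm_num) hXpos.ne'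
      _ ≤ 2 * Real.log X := by linarith
  have hlogH : Real.log H ≤ Real.log X := by
    refine Real.log_le_log (by linarith) (hHup.trans ?_)
    rw [Real.sqrt_le_left hXpos.le]
    nlinarith
  have hlogH0 : 0 ≤ Real.log H := Real.log_nonneg (by linarith)
  set M : Set ℝ := mn P (P / H) with hM
  have hMm : MeasurableSet M := mn_meas _ _
  have hMI : M ⊆ Set.Icc 0 1 := fun α hα => hα.1
  set F : ℝ → ℂ := fun α => SfH H α * SgH N₀ H α with hF
  have hFc : Continuous F := (sf_cont H).mul (sg_cont N₀ H)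
  have hB := hbsl F M (Ioc N₀ (N₀ + H)) hFc hMm hMI
  set K : ℝ := C1 * H * P ^ (-(1 / 2) : ℝ) * Real.log H ^ 6 with hK
  have hK0 : 0 ≤ K := by positivity
  have hsgc : Continuous fun α => ‖SgH N₀ H α‖ ^ 2 := (sg_cont N₀ H).norm.pow 2
  have h1 : ∫ α in M, ‖F α‖ ^ 2 ≤ ∫ α in M, K ^ 2 * ‖SgH N₀ H α‖ ^ 2 := by
    refine setIntegral_mono_on ?_ ?_ hMm ?_
    · exact ((hFc.norm.pow 2).integrableOn_Icc).mono_set hMI
    · exact ((continuous_const.mul hsgc).integrableOn_Icc).mono_set hMI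
    · intro α hα
      have h2 : ‖SfH H α‖ ≤ K := hmin H P α hHX1 hP hPH hα
      simp only [hF, norm_mul, mul_pow]
      exact mul_le_mul_of_nonneg_right (pow_le_pow_left₀ (norm_nonneg _) h2 2) (sq_nonneg _)
  have h2 : ∫ α in M, K ^ 2 * ‖SgH N₀ H α‖ ^ 2 ≤ K ^ 2 * (4 * H * (2 * Real.log X) ^ 2) := by
    rw [integral_const_mul]
    refine mul_le_mul_of_nonneg_left ?_ (sq_nonneg K)
    calc ∫ α in M, ‖SgH N₀ H α‖ ^ 2 ≤ ∫ α in Set.Icc (0 : ℝ) 1, ‖SgH N₀ H α‖ ^ 2 := by
          refine setIntegral_mono_set hsgc.integrableOn_Icc ?_ ?_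
          · exact Filter.Eventually.of_forall fun α => sq_nonneg _
          · exact hMI.eventuallyLE
      _ = ∫ α in (0 : ℝ)..1, ‖SgH N₀ H α‖ ^ 2 := by
          rw [intervalIntegral.integral_of_le zero_le_one, integral_Icc_eq_integral_Ioc]
      _ ≤ 4 * H * (2 * Real.log X) ^ 2 := sg_sq N₀ H (by omega) _ hN01 hlogN
  have h3 : K ^ 2 * (4 * H * (2 * Real.log X) ^ 2) =
      16 * C1 ^ 2 * (H : ℝ) ^ 3 / P * (Real.log H ^ 12 * Real.log X ^ 2) := by
    have hP0 : (0 : ℝ) < P := by linarith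
    have h4 : (P ^ (-(1 / 2) : ℝ)) ^ 2 = P⁻¹ := by
      rw [← Real.rpow_natCast, ← Real.rpow_mul hP0.le]
      norm_num
      exact Real.rpow_neg_one P
    calc K ^ 2 * (4 * H * (2 * Real.log X) ^ 2) = 16 * C1 ^ 2 * (H : ℝ) ^ 3 *
          (P ^ (-(1 / 2) : ℝ)) ^ 2 * (Real.log H ^ 12 * Real.log X ^ 2) := by rw [hK]; ring
      _ = _ := by rw [h4]; ring
  have h5 : (H : ℝ) ^ 3 ≤ (X : ℝ) ^ (3 / 2 : ℝ) := by
    calc (H : ℝ) ^ 3 ≤ (√(X : ℝ)) ^ 3 := pow_le_pow_left₀ (by positivity) hHup 3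
      _ = (X : ℝ) ^ (3 / 2 : ℝ) := by
          rw [Real.sqrt_eq_rpow, ← Real.rpow_natCast, ← Real.rpow_mul hXpos.le]
          norm_num
  have h6 : Real.log H ^ 12 * Real.log X ^ 2 ≤ Real.log X ^ 14 := by
    calc Real.log H ^ 12 * Real.log X ^ 2 ≤ Real.log X ^ 12 * Real.log X ^ 2 :=
          mul_le_mul_of_nonneg_right (pow_le_pow_left₀ hlogH0 hlogH 12) (sq_nonneg _)
      _ = Real.log X ^ 14 := by ring
  calc ∑ N ∈ Ioc N₀ (N₀ + H), ‖∫ α in M, SfH H α * SgH N₀ H α * ex (-(N * α))‖ ^ 2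
      ≤ ∫ α in M, ‖F α‖ ^ 2 := hB
    _ ≤ 16 * C1 ^ 2 * (H : ℝ) ^ 3 / P * (Real.log H ^ 12 * Real.log X ^ 2) := by
        rw [← h3]
        exact h1.trans h2
    _ ≤ 16 * C1 ^ 2 * (X : ℝ) ^ (3 / 2 : ℝ) / P * Real.log X ^ 14 := by
        have hP0 : (0 : ℝ) < P := by linarith
        refine mul_le_mul ?_ h6 (by positivity) (by positivity)
        exact div_le_div_of_nonneg_right (mul_le_mul_of_nonneg_left h5 (by positivity)) hP0.le

end Pool.Agent.Helper45.MV
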