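import Pool.Agent.Helper23.MV.StC
import Pool.Agent.Helper15.AB.M_DB
import Pool.Agent.Helper29.GK.M_SSA

/-!
# Project MV (MP_b454d1_nt), module FNC (helper45): conclusion of the circle method
-/

set_option autoImplicit false

namespace Pool.Agent.Helper45.MV

open Finset ArithmeticFunction MeasureTheory
open Pool.Agent.Helper48.BK (ex th Sx Apx)
open Pool.Agent.Helper2.MR (ch)
open Pool.Agent.Helper23.GK (cR SS StSsa)
open Pool.Agent.Helper23.MV

private lemma mem_PS_FNC (Q : ℝ) (c : PCh) (h : c ∈ PS Q) : (c.r : ℝ) ≤ Q := by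
  unfold PS at h
  split_ifs at h with h1
  · simpa using h
  · simp at h

private lemma card_PS_FNC (P : ℝ) (hP : 1 ≤ P) : ((PS P).card : ℝ) ≤ P ^ 2 := by
  classical
  have hfib : ∀ r ∈ Icc 1 ⌊P⌋₊, ((PS P).filter (fun c => c.r = r)).card ≤ ⌊P⌋₊ := by
    intro r hr
    rw [Finset.mem_Icc] at hr
    have hr0 : r ≠ 0 := by omega
    haveI : NeZero r := ⟨hr0⟩
    haveI := Fintype.ofFinite (DirichletCharacter ℂ r)
    let F : {χ : DirichletCharacter ℂ r // χ.IsPrimitive} → PCh := fun χ => ⟨r, hr0, χ.1, χ.2⟩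
    have hsub : (PS P).filter (fun c => c.r = r) ⊆ Finset.univ.image F := by
      intro c hc
      rw [Finset.mem_filter] at hc
      obtain ⟨r', hr', χ, hχ⟩ := c
      have h : r' = r := hc.2
      subst h
      rw [Finset.mem_image]
      exact ⟨⟨χ, hχ⟩, Finset.mem_univ _, rfl⟩
    calc ((PS P).filter (fun c => c.r = r)).card ≤ (Finset.univ.image F).card :=
          Finset.card_le_card hsub
      _ ≤ Fintype.card {χ : DirichletCharacter ℂ r // χ.IsPrimitive} := Finset.card_image_le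
      _ ≤ Fintype.card (DirichletCharacter ℂ r) := Fintype.card_subtype_le _
      _ = r.totient := by
          rw [← Nat.card_eq_fintype_card]
          exact DirichletCharacter.card_eq_totient_of_hasEnoughRootsOfUnity ℂ r
      _ ≤ ⌊P⌋₊ := (Nat.totient_le r).trans hr.2
  have h1 : (PS P).card ≤ ⌊P⌋₊ * ⌊P⌋₊ := by
    have hmaps : ∀ c ∈ PS P, c.r ∈ Icc 1 ⌊P⌋₊ := by
      intro c hc
      rw [Finset.mem_Icc]
      exact ⟨Nat.one_le_iff_ne_zero.mpr c.hr, Nat.le_floor (mem_PS_FNC P c hc)⟩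
    rw [Finset.card_eq_sum_card_fiberwise (f := fun c : PCh => c.r) (t := Icc 1 ⌊P⌋₊)
      (fun c hc => hmaps c (by simpa using hc))]
    calc ∑ r ∈ Icc 1 ⌊P⌋₊, ((PS P).filter (fun c => c.r = r)).card
        ≤ ∑ _r ∈ Icc 1 ⌊P⌋₊, ⌊P⌋₊ := Finset.sum_le_sum hfib
      _ = ⌊P⌋₊ * ⌊P⌋₊ := by rw [Finset.sum_const, Nat.card_Icc, smul_eq_mul]; simp
  have h2 : (⌊P⌋₊ : ℝ) ≤ P := Nat.floor_le (by linarith)
  calc ((PS P).card : ℝ) ≤ (⌊P⌋₊ : ℝ) * ⌊P⌋₊ := by exact_mod_cast h1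
    _ ≤ P * P := mul_le_mul h2 h2 (Nat.cast_nonneg _) (by linarith)
    _ = P ^ 2 := by ring

private lemma ex_per_FNC (t : ℝ) (k : ℤ) : ex (t + k) = ex t := by
  unfold ex
  have : 2 * (Real.pi : ℂ) * ((t + k : ℝ) : ℂ) * Complex.I =
      2 * Real.pi * t * Complex.I + k * (2 * Real.pi * Complex.I) := by
    push_cast
    ring
  rw [this, Complex.exp_add, Complex.exp_int_mul_two_pi_mul_I, mul_one]

private lemma ex_cont_FNC : Continuous ex := by
  unfold ex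
  fun_prop

private lemma sf_cont_FNC (H : ℕ) : Continuous (SfH H) := by
  unfold SfH
  refine continuous_finsetSum _ fun m _ => ?_
  exact continuous_const.mul (ex_cont_FNC.comp (continuous_const.mul continuous_id))

private lemma sg_cont_FNC (N₀ H : ℕ) : Continuous (SgH N₀ H) := by
  unfold SgH
  refine continuous_finsetSum _ fun m _ => ?_
  exact continuous_const.mul (ex_cont_FNC.comp (continuous_const.mul continuous_id))

private lemma ex_nat_FNC (n : ℕ) (x : ℝ) : ex (n * (x + 1)) = ex (n * x) := by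
  have := ex_per_FNC (n * x) (n : ℤ)
  rw [← this]
  congr 1
  push_cast
  ring

private lemma sf_per_FNC (H : ℕ) (x : ℝ) : SfH H (x + 1) = SfH H x := by
  unfold SfH
  exact Finset.sum_congr rfl fun m _ => by rw [ex_nat_FNC]

private lemma sg_per_FNC (N₀ H : ℕ) (x : ℝ) : SgH N₀ H (x + 1) = SgH N₀ H x := by
  unfold SgH
  exact Finset.sum_congr rfl fun m _ => by rw [ex_nat_FNC]

/-- lower bound for the number of representations of one `N` -/
private lemma one_FNC (hMja : StMja) (hRri : StRri) (hMjf : StMjf) (Cj Ct : ℝ)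
    (hj : ∀ (o : Option (PCh × ℝ)) (H N₀ N : ℕ) (P ε : ℝ)
      (a b : PCh → ℝ), OKb o 1 → 1 ≤ H → 4 * H < N₀ → N₀ < N → N ≤ N₀ + H → Even N → 1 ≤ P →
      2 * P ≤ H → 0 ≤ ε → ε ≤ 1 →
      (∀ c ∈ PS P, 0 ≤ a c ∧ 0 ≤ b c ∧ nrm (Ef o c H) (P / H) ≤ √(H : ℝ) * a c ∧
        nrm (Eg o c N₀ H) (P / H) ≤ √(H : ℝ) * b c) →
      ∑ c ∈ PS P, a c ≤ ε → ∑ c ∈ PS P, b c ≤ ε →
      ‖(∑ c₁ ∈ PS P, ∑ c₂ ∈ PS P, KK c₁ c₂ P N *
          ∫ β in (-(P / H))..(P / H), (Mf o c₁ H β + Ef o c₁ H β) * (Mg o c₂ N₀ H β + Eg o c₂ N₀ H β) *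
            ex (-(N * β))) -
        ∑ c₁ ∈ PS P, ∑ c₂ ∈ PS P, KK c₁ c₂ P N *
          ((∑ n ∈ Ioc (2 * H) (3 * H), mwt o c₁ n * mwt o c₂ ((N - n : ℕ) : ℝ) : ℝ) : ℂ)‖ ≤
        Cj * SS N * H * (ε + 1 / P))
    (ht : ∀ (X : ℕ) (o : Option (PCh × ℝ)) (N : ℕ) (P : ℝ), 100 ≤ X →
      OKb o 1 → (∀ (e : PCh) (δ : ℝ), o = some (e, δ) → (e.r : ℝ) ^ 2 ≤ P) → 1 ≤ P → X < N →
      N ≤ 2 * X → Even N →
      (Nat.sqrt X : ℝ) * SS N * (mm o X ^ 2 / 10 - Ct * (N.divisors.card : ℝ) * P ^ (-(1 / 4) : ℝ)) ≤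
        (∑ c₁ ∈ PS P, ∑ c₂ ∈ PS P, KK c₁ c₂ P N *
          ((∑ n ∈ Ioc (2 * Nat.sqrt X) (3 * Nat.sqrt X),
            mwt o c₁ n * mwt o c₂ ((N - n : ℕ) : ℝ) : ℝ) : ℂ)).re)
    (X : ℕ) (o : Option (PCh × ℝ)) (N₀ N : ℕ) (P ε : ℝ) (a b : PCh → ℝ) (hX : 100 ≤ X)
    (ho : OKb o 1) (hoP : ∀ (e : PCh) (δ : ℝ), o = some (e, δ) → (e.r : ℝ) ^ 2 ≤ P) (hP : 1 ≤ P)
    (hPH : 2 * P ^ 3 < Nat.sqrt X) (hN₀ : 5 * Nat.sqrt X < N₀) (hXN₀ : X ≤ N₀) (hN1 : N₀ < N)
    (hN2 : N ≤ N₀ + Nat.sqrt X) (hN3 : N ≤ 2 * X) (hNe : Even N) (hε : 0 ≤ ε) (hε1 : ε ≤ 1)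
    (hab : ∀ c ∈ PS P, 0 ≤ a c ∧ 0 ≤ b c ∧
      nrm (Ef o c (Nat.sqrt X)) (P / Nat.sqrt X) ≤ √(Nat.sqrt X : ℝ) * a c ∧
      nrm (Eg o c N₀ (Nat.sqrt X)) (P / Nat.sqrt X) ≤ √(Nat.sqrt X : ℝ) * b c)
    (ha : ∑ c ∈ PS P, a c ≤ ε) (hb : ∑ c ∈ PS P, b c ≤ ε) :
    (Nat.sqrt X : ℝ) * SS N * (mm o X ^ 2 / 10 - Ct * (N.divisors.card : ℝ) * P ^ (-(1 / 4) : ℝ)) -
      Cj * SS N * Nat.sqrt X * (ε + 1 / P) -
      ‖∫ α in mn P (P / Nat.sqrt X), SfH (Nat.sqrt X) α * SgH N₀ (Nat.sqrt X) α * ex (-(N * α))‖ ≤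
    ∑ n ∈ Ioc (2 * Nat.sqrt X) (3 * Nat.sqrt X), th n * th (N - n) := by
  set H : ℕ := Nat.sqrt X with hH
  have hP3 : P ≤ P ^ 3 := by
    calc P = P ^ 1 := (pow_one P).symm
      _ ≤ P ^ 3 := pow_le_pow_right₀ hP (by norm_num)
  have hHR : (0 : ℝ) < H := by linarith
  have hH1 : 1 ≤ H := by exact_mod_cast hHR
  have h1 := hRri H N₀ N hH1 (by omega) hN1 hN2
  have h2 := hMja (fun α => SfH H α * SgH N₀ H α * ex (-(N * α))) P (P / H)
    (((sf_cont_FNC H).mul (sg_cont_FNC N₀ H)).mul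
      (ex_cont_FNC.comp (continuous_const.mul continuous_id).neg))
    (by
      intro x
      rw [sf_per_FNC, sg_per_FNC]
      congr 1
      have := ex_per_FNC (-(N * x)) (-(N : ℤ))
      rw [← this]
      congr 1
      push_cast
      ring) hP (by positivity) (by
        rw [← mul_div_assoc, div_mul_eq_mul_div, div_lt_one hHR]
        nlinarith)
  have h3 := hMjf o H N₀ N P (P / H) hH1 hP (by nlinarith) hN₀ (by positivity)
  have h4 := hj o H N₀ N P ε a b ho hH1 (by omega) hN1 hN2 hNe hP (by linarith) hε hε1 hab ha hb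
  have h5 := ht X o N P hX ho hoP hP (by omega) hN3 hNe
  rw [← hH] at h5
  rw [h2, h3] at h1
  set I := ∫ α in mn P (P / H), SfH H α * SgH N₀ H α * ex (-(N * α)) with hI
  set D := ∑ c₁ ∈ PS P, ∑ c₂ ∈ PS P, KK c₁ c₂ P N *
      ∫ β in (-(P / H))..(P / H), (Mf o c₁ H β + Ef o c₁ H β) * (Mg o c₂ N₀ H β + Eg o c₂ N₀ H β) *
        ex (-(N * β)) with hD
  set E := ∑ c₁ ∈ PS P, ∑ c₂ ∈ PS P, KK c₁ c₂ P N *
      ((∑ n ∈ Ioc (2 * H) (3 * H), mwt o c₁ n * mwt o c₂ ((N - n : ℕ) : ℝ) : ℝ) : ℂ) with hE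
  have h6 : ∑ n ∈ Ioc (2 * H) (3 * H), th n * th (N - n) = I.re + D.re := by
    have := congrArg Complex.re h1
    rw [Complex.ofReal_re, Complex.add_re] at this
    exact this
  have h7 : -‖I‖ ≤ I.re := (abs_le.mp (Complex.abs_re_le_norm I)).1
  have h8 : -‖D - E‖ ≤ (D - E).re := (abs_le.mp (Complex.abs_re_le_norm (D - E))).1
  rw [Complex.sub_re] at h8
  rw [h6]
  linarith

private lemma ev_log_FNC (C a : ℝ) (k : ℕ) (ha : 0 < a) :
    ∀ᶠ x : ℝ in Filter.atTop, C * Real.log x ^ k ≤ x ^ a := by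
  have h := (isLittleO_log_rpow_rpow_atTop (k : ℝ) ha).const_mul_left C
  filter_upwards [h.bound zero_lt_one, Filter.eventually_ge_atTop 1] with x hx hx1
  rw [one_mul, Real.norm_of_nonneg (Real.rpow_nonneg (by linarith) _), Real.rpow_natCast] at hx
  exact (le_abs_self _).trans hx

private lemma ev_rpow_FNC (C a : ℝ) (ha : 0 < a) : ∀ᶠ x : ℝ in Filter.atTop, C ≤ x ^ a := by
  have := ev_log_FNC C a 0 ha
  simpa using this

private lemma ZS_nonneg_FNC (o : Option (PCh × ℝ)) (c : PCh) (η T Y : ℝ) (hY : 0 ≤ Y) :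
    0 ≤ ZS o c η T Y :=
  Finset.sum_nonneg fun _ _ => mul_nonneg (Nat.cast_nonneg _) (Real.rpow_nonneg hY _)

/-- number of elements with a large value -/
private lemma cheb_FNC (S : Finset ℕ) (f : ℕ → ℝ) (t B : ℝ) (ht : 0 ≤ t) (h : ∑ N ∈ S, f N ^ 2 ≤ B) :
    ((S.filter (fun N => t < f N)).card : ℝ) * t ^ 2 ≤ B := by
  calc ((S.filter (fun N => t < f N)).card : ℝ) * t ^ 2 =
        ∑ _N ∈ S.filter (fun N => t < f N), t ^ 2 := by rw [Finset.sum_const, nsmul_eq_mul]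
    _ ≤ ∑ N ∈ S.filter (fun N => t < f N), f N ^ 2 := by
        refine Finset.sum_le_sum fun N hN => ?_
        exact pow_le_pow_left₀ ht (Finset.mem_filter.mp hN).2.le 2
    _ ≤ ∑ N ∈ S, f N ^ 2 := Finset.sum_le_sum_of_subset_of_nonneg (Finset.filter_subset _ _)
        fun N _ _ => sq_nonneg _
    _ ≤ B := h

theorem hFnc : StFnc := by
  rintro ⟨ηZ, hηZ0, hηZ1, hZ⟩ ⟨ηf, hηf0, hηf1, hf⟩ ⟨ηg, hηg0, hηg1, hg⟩ ⟨Cm, Xm, hCm, hXm, hm⟩
    hMja hRri hMjf ⟨Cj, hCj, hj⟩ ⟨Ct, hCt, ht⟩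
  set η : ℝ := min ηZ (min ηf ηg) with hη
  have hη0 : 0 < η := lt_min hηZ0 (lt_min hηf0 hηg0)
  have hηZ : η ≤ ηZ := min_le_left _ _
  have hηf : η ≤ ηf := (min_le_right _ _).trans (min_le_left _ _)
  have hηg : η ≤ ηg := (min_le_right _ _).trans (min_le_right _ _)
  have hη1 : η ≤ 1 / 100 := hηZ.trans hηZ1
  obtain ⟨Cf, Xf, hCf, hXf, hf⟩ := hf η hη0 hηf
  obtain ⟨Cg, Xg, hCg, hXg, hg⟩ := hg η hη0 hηg
  set C₀ : ℝ := max Cf Cg with hC₀
  have hCf0 : Cf ≤ C₀ := le_max_left _ _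
  have hCg0 : Cg ≤ C₀ := le_max_right _ _
  have hC₀1 : 1 ≤ C₀ := hCf.trans hCf0
  set ε : ℝ := 1 / (200 * Cj * C₀) with hε
  have hε0 : 0 < ε := by positivity
  obtain ⟨δ₀, XZ, hδ0, hδη, hXZ, hZ⟩ := hZ η hη0 hηZ ε hε0
  obtain ⟨Cτ, hCτ, hτ⟩ := Pool.Agent.Helper15.AB.hDB (δ₀ / 100) (by positivity)
  have hδ1 : δ₀ ≤ 1 / 10000000 := by linarith
  set d : ℝ := min (η / 600) (δ₀ / 8) with hd
  have hd0 : 0 < d := lt_min (by positivity) (by positivity)
  have hev : ∀ᶠ x : ℝ in Filter.atTop, (10000 ≤ x ∧ XZ ≤ x ∧ Xf ≤ x ∧ Xg ≤ x ∧ Xm ≤ x) ∧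
      ε⁻¹ ≤ x ^ (22 * η / 100000) ∧ 100 * Cj ≤ x ^ (δ₀ / 4) ∧ 200 * Ct * Cτ ≤ x ^ (11 * δ₀ / 100) ∧
      10800 * Cm * Real.log x ^ 14 ≤ x ^ (δ₀ / 5) ∧ 2 ≤ x ^ d := by
    filter_upwards [Filter.eventually_ge_atTop 10000, Filter.eventually_ge_atTop XZ,
      Filter.eventually_ge_atTop Xf, Filter.eventually_ge_atTop Xg, Filter.eventually_ge_atTop Xm,
      ev_rpow_FNC ε⁻¹ (22 * η / 100000) (by positivity), ev_rpow_FNC (100 * Cj) (δ₀ / 4) (by positivity),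
      ev_rpow_FNC (200 * Ct * Cτ) (11 * δ₀ / 100) (by positivity),
      ev_log_FNC (10800 * Cm) (δ₀ / 5) 14 (by positivity), ev_rpow_FNC 2 d hd0]
      with x h1 h2 h3 h4 h5 h6 h7 h8 h9 h10
    exact ⟨⟨h1, h2, h3, h4, h5⟩, h6, h7, h8, h9, h10⟩
  obtain ⟨X0, hX0⟩ := Filter.eventually_atTop.mp hev
  refine ⟨d, max X0 2, hd0, le_max_right _ _, ?_⟩
  intro X hX
  obtain ⟨⟨hX1, hXZ', hXf', hXg', hXm'⟩, hA3, hA4, hA5, hA6, hA7⟩ := hX0 X ((le_max_left _ _).trans hX)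
  obtain ⟨P, hP1, hP2, hcase⟩ := hZ X hXZ'
  have hXpos : (0 : ℝ) < X := by linarith
  have hX1' : (1 : ℝ) ≤ X := by linarith
  have hX100 : 100 ≤ X := by
    have : (100 : ℝ) ≤ X := by linarith
    exact_mod_cast this
  have hP : 1 ≤ P := (Real.one_le_rpow hX1' (by positivity)).trans hP1
  have hP0 : 0 < P := by linarith
  have hlog : 0 ≤ Real.log X := Real.log_nonneg hX1'
  -- the exceptional datum
  obtain ⟨o, hoB, hoO, hoP, hm0, hmP, hm1, hmZ⟩ : ∃ o : Option (PCh × ℝ), OKb o 1 ∧ OKo o η X ∧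
      (∀ (e : PCh) (δ : ℝ), o = some (e, δ) → (e.r : ℝ) ^ 2 ≤ P) ∧ 0 < mm o X ∧
      P ^ (-(1 / 100) : ℝ) ≤ mm o X ^ 2 ∧ mm o X ≤ 1 ∧
      ∑ c ∈ PS P, ZS o c (2 * η) X (√(X : ℝ)) ≤ ε * mm o X ^ 2 := by
    rcases hcase with hc | ⟨e, δ, h1, h2, h3, h4, h5, h6, h7, h8⟩
    · refine ⟨none, ?_, ?_, ?_, ?_, ?_, ?_, ?_⟩
      · intro e δ h
        exact absurd h (by simp)
      · intro e δ h
        exact absurd h (by simp)
      · intro e δ h
        exact absurd h (by simp)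
      · simp [mm]
      · simp only [mm, one_pow]
        exact Real.rpow_le_one_of_one_le_of_nonpos hP (by norm_num)
      · simp [mm]
      · simpa [mm] using hc
    · refine ⟨some (e, δ), ?_, ?_, ?_, ?_, ?_, ?_, ?_⟩
      · intro e' δ' h
        simp only [Option.some.injEq, Prod.mk.injEq] at h
        obtain ⟨rfl, rfl⟩ := h
        exact ⟨h1, h3, by linarith, h5, h6⟩
      · intro e' δ' h
        simp only [Option.some.injEq, Prod.mk.injEq] at h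
        obtain ⟨rfl, rfl⟩ := h
        refine ⟨h1, ?_, h3, h4, h5, h6⟩
        have hr1 : (1 : ℝ) ≤ e.r := by exact_mod_cast Nat.one_le_iff_ne_zero.mpr e.hr
        calc (e.r : ℝ) ≤ (e.r : ℝ) ^ 2 := le_self_pow₀ hr1 two_ne_zero
          _ ≤ P := h2
          _ ≤ (X : ℝ) ^ δ₀ := hP2
          _ ≤ (X : ℝ) ^ (η / 1000) := Real.rpow_le_rpow_of_exponent_le hX1' (by linarith)
      · intro e' δ' h
        simp only [Option.some.injEq, Prod.mk.injEq] at h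
        obtain ⟨rfl, rfl⟩ := h
        exact h2
      · simp only [mm]
        refine lt_min one_pos (mul_pos h3 (Real.log_pos (by linarith)))
      · simpa only [mm] using h7
      · simp only [mm]
        exact min_le_left _ _
      · simpa only [mm] using h8
  set m : ℝ := mm o X with hmdef
  have hm2 : m ^ 2 ≤ 1 := pow_le_one₀ hm0.le hm1
  set H : ℕ := Nat.sqrt X with hH
  have hHlow : √(X : ℝ) / 2 ≤ H := by
    have h1 : √(X : ℝ) < (H : ℝ) + 1 := by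
      rw [Real.sqrt_lt' (by positivity)]
      have := Nat.lt_succ_sqrt' X
      rw [← hH] at this
      exact_mod_cast this
    have h2 : (2 : ℝ) ≤ √(X : ℝ) := by
      apply Real.le_sqrt_of_sq_le
      linarith
    linarith
  have hHup : (H : ℝ) ≤ √(X : ℝ) := by
    apply Real.le_sqrt_of_sq_le
    have := Nat.sqrt_le' X
    rw [← hH] at this
    exact_mod_cast this
  have hs100 : (100 : ℝ) ≤ √(X : ℝ) := by
    apply Real.le_sqrt_of_sq_le
    linarith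
  have hss : √(X : ℝ) * √(X : ℝ) = X := Real.mul_self_sqrt hXpos.le
  have hHpos : (0 : ℝ) < H := by linarith
  have hH1 : 1 ≤ H := by exact_mod_cast hHpos
  have hPX : P ≤ (X : ℝ) ^ (1 / 12 : ℝ) :=
    hP2.trans (Real.rpow_le_rpow_of_exponent_le hX1' (by linarith))
  have hPH : 2 * P ^ 3 < H := by
    have h1 : P ^ 3 ≤ √(√(X : ℝ)) := by
      calc P ^ 3 ≤ ((X : ℝ) ^ (1 / 12 : ℝ)) ^ 3 := pow_le_pow_left₀ hP0.le hPX 3
        _ = (X : ℝ) ^ (1 / 4 : ℝ) := by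
            rw [← Real.rpow_natCast, ← Real.rpow_mul hXpos.le]
            norm_num
        _ = √(√(X : ℝ)) := by
            rw [Real.sqrt_eq_rpow, Real.sqrt_eq_rpow, ← Real.rpow_mul hXpos.le]
            norm_num
    have h2 : (10 : ℝ) ≤ √(√(X : ℝ)) := by
      apply Real.le_sqrt_of_sq_le
      linarith
    have h3 : √(√(X : ℝ)) * √(√(X : ℝ)) = √(X : ℝ) := Real.mul_self_sqrt (Real.sqrt_nonneg _)
    have h4 : 10 * √(√(X : ℝ)) ≤ √(√(X : ℝ)) * √(√(X : ℝ)) :=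
      mul_le_mul_of_nonneg_right h2 (Real.sqrt_nonneg _)
    linarith
  have h5H : 5 * H < X := by
    have h1 : 100 * √(X : ℝ) ≤ √(X : ℝ) * √(X : ℝ) :=
      mul_le_mul_of_nonneg_right hs100 (Real.sqrt_nonneg _)
    have : (5 : ℝ) * H < X := by linarith
    exact_mod_cast this
  -- the number of characters
  have hcPS : ((PS P).card : ℝ) ≤ P ^ 2 := card_PS_FNC P hP
  have hPη : P ≤ (X : ℝ) ^ (η / 100000) :=
    hP2.trans (Real.rpow_le_rpow_of_exponent_le hX1' hδη)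
  have hcond : ∀ c ∈ PS P, (c.r : ℝ) ≤ (X : ℝ) ^ (η / 1000) := fun c hc =>
    (mem_PS_FNC P c hc).trans (hPη.trans (Real.rpow_le_rpow_of_exponent_le hX1' (by linarith)))
  have hPinv : P ^ (-(1 / 100) : ℝ) * P ^ (1 / 100 : ℝ) = 1 := by
    rw [← Real.rpow_add hP0]
    norm_num
  have hcardε : ((PS P).card : ℝ) * (X : ℝ) ^ (-(η / 4000)) ≤ ε * m ^ 2 := by
    have h1 : P ^ 2 * P ^ (1 / 100 : ℝ) ≤ (X : ℝ) ^ (3 * η / 100000) := by
      calc P ^ 2 * P ^ (1 / 100 : ℝ) ≤ P ^ 2 * P ^ (1 : ℝ) :=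
            mul_le_mul_of_nonneg_left (Real.rpow_le_rpow_of_exponent_le hP (by norm_num)) (sq_nonneg _)
        _ = P ^ 3 := by rw [Real.rpow_one]; ring
        _ ≤ ((X : ℝ) ^ (η / 100000)) ^ 3 := pow_le_pow_left₀ hP0.le hPη 3
        _ = (X : ℝ) ^ (3 * η / 100000) := by
            rw [← Real.rpow_natCast, ← Real.rpow_mul hXpos.le]
            congr 1
            push_cast
            ring
    have h2 : (X : ℝ) ^ (3 * η / 100000) * (X : ℝ) ^ (-(η / 4000)) ≤ ε := by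
      rw [← Real.rpow_add hXpos, show 3 * η / 100000 + -(η / 4000) = -(22 * η / 100000) by ring,
        Real.rpow_neg hXpos.le]
      exact inv_le_of_inv_le₀ hε0 hA3
    have h3 : 0 ≤ (X : ℝ) ^ (-(η / 4000)) := Real.rpow_nonneg hXpos.le _
    have h4 : P ^ 2 * (X : ℝ) ^ (-(η / 4000)) * P ^ (1 / 100 : ℝ) ≤ ε := by
      calc P ^ 2 * (X : ℝ) ^ (-(η / 4000)) * P ^ (1 / 100 : ℝ) =
            (P ^ 2 * P ^ (1 / 100 : ℝ)) * (X : ℝ) ^ (-(η / 4000)) := by ring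
        _ ≤ (X : ℝ) ^ (3 * η / 100000) * (X : ℝ) ^ (-(η / 4000)) := mul_le_mul_of_nonneg_right h1 h3
        _ ≤ ε := h2
    have h5 : P ^ 2 * (X : ℝ) ^ (-(η / 4000)) ≤ ε * P ^ (-(1 / 100) : ℝ) := by
      have h6 : 0 ≤ P ^ (-(1 / 100) : ℝ) := Real.rpow_nonneg hP0.le _
      calc P ^ 2 * (X : ℝ) ^ (-(η / 4000)) =
            P ^ 2 * (X : ℝ) ^ (-(η / 4000)) * (P ^ (-(1 / 100) : ℝ) * P ^ (1 / 100 : ℝ)) := by
              rw [hPinv, mul_one]
        _ = (P ^ 2 * (X : ℝ) ^ (-(η / 4000)) * P ^ (1 / 100 : ℝ)) * P ^ (-(1 / 100) : ℝ) := by ring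
        _ ≤ ε * P ^ (-(1 / 100) : ℝ) := mul_le_mul_of_nonneg_right h4 h6
    calc ((PS P).card : ℝ) * (X : ℝ) ^ (-(η / 4000)) ≤ P ^ 2 * (X : ℝ) ^ (-(η / 4000)) :=
          mul_le_mul_of_nonneg_right hcPS h3
      _ ≤ ε * P ^ (-(1 / 100) : ℝ) := h5
      _ ≤ ε * m ^ 2 := mul_le_mul_of_nonneg_left hmP hε0.le
  set Zc : PCh → ℝ := fun c => ZS o c (2 * η) X (√(X : ℝ)) with hZc
  have hZc0 : ∀ c, 0 ≤ Zc c := fun c => ZS_nonneg_FNC _ _ _ _ _ (Real.sqrt_nonneg _)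
  set a : PCh → ℝ := fun c => Cf * (Zc c + (X : ℝ) ^ (-(η / 200))) with ha
  set b : PCh → ℝ := fun c => Cg * (Zc c + (X : ℝ) ^ (-(η / 4000))) with hb
  have hx200 : (X : ℝ) ^ (-(η / 200)) ≤ (X : ℝ) ^ (-(η / 4000)) :=
    Real.rpow_le_rpow_of_exponent_le hX1' (by linarith)
  have hx200' : 0 ≤ (X : ℝ) ^ (-(η / 200)) := Real.rpow_nonneg hXpos.le _
  have hx4000' : 0 ≤ (X : ℝ) ^ (-(η / 4000)) := Real.rpow_nonneg hXpos.le _
  set ε' : ℝ := 2 * C₀ * (ε * m ^ 2) with hε'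
  have hCjε : Cj * ε' = m ^ 2 / 100 := by
    rw [hε', hε]
    field_simp
    norm_num
  have hε'0 : 0 ≤ ε' := by positivity
  have hε'1 : ε' ≤ 1 := by
    have : ε' ≤ Cj * ε' := le_mul_of_one_le_left hε'0 hCj
    linarith
  have hsum : ∀ (C' y : ℝ), 0 ≤ C' → C' ≤ C₀ → 0 ≤ y → y ≤ (X : ℝ) ^ (-(η / 4000)) →
      ∑ c ∈ PS P, C' * (Zc c + y) ≤ ε' := by
    intro C' y hC'0 hC' hy0 hy
    rw [← Finset.mul_sum, Finset.sum_add_distrib, Finset.sum_const, nsmul_eq_mul]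
    have h1 : ((PS P).card : ℝ) * y ≤ ε * m ^ 2 :=
      (mul_le_mul_of_nonneg_left hy (Nat.cast_nonneg _)).trans hcardε
    have h2 : 0 ≤ ∑ c ∈ PS P, Zc c := Finset.sum_nonneg fun c _ => hZc0 c
    have h3 : 0 ≤ ((PS P).card : ℝ) * y := by positivity
    calc C' * (∑ c ∈ PS P, Zc c + ((PS P).card : ℝ) * y) ≤ C₀ * (ε * m ^ 2 + ε * m ^ 2) :=
          mul_le_mul hC' (by linarith) (by linarith) (by linarith)
      _ = ε' := by rw [hε']; ring
  have hsa : ∑ c ∈ PS P, a c ≤ ε' := hsum Cf _ (by linarith) hCf0 hx200' hx200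
  have hsb : ∑ c ∈ PS P, b c ≤ ε' := hsum Cg _ (by linarith) hCg0 hx4000' le_rfl
  classical
  set J : Finset ℕ := (range X).filter (fun j => j * H < X) with hJ
  set bad : ℕ → Prop := fun j => ∃ c ∈ PS P, √(H : ℝ) * b c < nrm (Eg o c (X + j * H) H) (P / H)
    with hbad
  set I : ℕ → ℕ → ℝ := fun j N => ‖∫ α in mn P (P / H), SfH H α * SgH (X + j * H) H α *
      ex (-(N * α))‖ with hI
  -- a good number
  have hgood : ∀ j ∈ J, ¬ bad j → ∀ N ∈ Ioc (X + j * H) (X + j * H + H), N ≤ 2 * X → Even N →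
      I j N ≤ m ^ 2 * H / 30 → 0 < ∑ n ∈ Ioc (2 * H) (3 * H), th n * th (N - n) := by
    intro j hjJ hjb N hN hN2X hNe hIN
    rw [Finset.mem_Ioc] at hN
    rw [hJ, Finset.mem_filter] at hjJ
    have hab : ∀ c ∈ PS P, 0 ≤ a c ∧ 0 ≤ b c ∧ nrm (Ef o c H) (P / H) ≤ √(H : ℝ) * a c ∧
        nrm (Eg o c (X + j * H) H) (P / H) ≤ √(H : ℝ) * b c := by
      intro c hc
      have hz := hZc0 c
      refine ⟨by positivity, by positivity, ?_, ?_⟩
      · have := hf X o c P hXf' hoO (hcond c hc) hP hPη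
        rw [← hH] at this
        calc nrm (Ef o c H) (P / H) ≤ _ := this
          _ = √(H : ℝ) * a c := by rw [ha]; ring
      · by_contra hlt
        exact hjb ⟨c, hc, not_le.mp hlt⟩
    have h1 := one_FNC hMja hRri hMjf Cj Ct hj ht X o (X + j * H) N P ε' a b hX100 hoB hoP hP hPH
      (by rw [← hH]; omega) (by omega) hN.1 hN.2 hN2X hNe hε'0 hε'1 hab hsa hsb
    rw [← hH] at h1
    have hSS : 1 ≤ SS N := (Pool.Agent.Helper29.GK.hSSA N (by omega)).1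
    -- divisor bound
    have hND : Ct * (N.divisors.card : ℝ) * P ^ (-(1 / 4) : ℝ) ≤ m ^ 2 / 100 := by
      have hN1 : 1 ≤ N := by omega
      have h2 : (N.divisors.card : ℝ) ≤ Cτ * (2 * (X : ℝ) ^ (δ₀ / 100)) := by
        refine (hτ N hN1).trans (mul_le_mul_of_nonneg_left ?_ (by linarith))
        have h3 : (N : ℝ) ≤ 2 * X := by exact_mod_cast hN2X
        calc (N : ℝ) ^ (δ₀ / 100) ≤ (2 * (X : ℝ)) ^ (δ₀ / 100) :=
              Real.rpow_le_rpow (Nat.cast_nonneg _) h3 (by positivity)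
          _ = (2 : ℝ) ^ (δ₀ / 100) * (X : ℝ) ^ (δ₀ / 100) := Real.mul_rpow (by norm_num) hXpos.le
          _ ≤ 2 * (X : ℝ) ^ (δ₀ / 100) := by
              refine mul_le_mul_of_nonneg_right ?_ (Real.rpow_nonneg hXpos.le _)
              calc (2 : ℝ) ^ (δ₀ / 100) ≤ (2 : ℝ) ^ (1 : ℝ) :=
                    Real.rpow_le_rpow_of_exponent_le (by norm_num) (by linarith)
                _ = 2 := Real.rpow_one 2
      have h4 : (X : ℝ) ^ (12 * δ₀ / 100) ≤ P ^ (24 / 100 : ℝ) := by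
        calc (X : ℝ) ^ (12 * δ₀ / 100) = ((X : ℝ) ^ (δ₀ / 2)) ^ (24 / 100 : ℝ) := by
              rw [← Real.rpow_mul hXpos.le]
              congr 1
              ring
          _ ≤ P ^ (24 / 100 : ℝ) := Real.rpow_le_rpow (Real.rpow_nonneg hXpos.le _) hP1 (by norm_num)
      have h5 : 100 * (Ct * (N.divisors.card : ℝ)) ≤ P ^ (24 / 100 : ℝ) := by
        calc 100 * (Ct * (N.divisors.card : ℝ)) ≤ 100 * (Ct * (Cτ * (2 * (X : ℝ) ^ (δ₀ / 100)))) := by
              refine mul_le_mul_of_nonneg_left (mul_le_mul_of_nonneg_left h2 (by linarith)) (by norm_num)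
          _ = (200 * Ct * Cτ) * (X : ℝ) ^ (δ₀ / 100) := by ring
          _ ≤ (X : ℝ) ^ (11 * δ₀ / 100) * (X : ℝ) ^ (δ₀ / 100) :=
              mul_le_mul_of_nonneg_right hA5 (Real.rpow_nonneg hXpos.le _)
          _ = (X : ℝ) ^ (12 * δ₀ / 100) := by
              rw [← Real.rpow_add hXpos]
              congr 1
              ring
          _ ≤ P ^ (24 / 100 : ℝ) := h4
      have h6 : P ^ (24 / 100 : ℝ) * P ^ (-(1 / 4) : ℝ) = P ^ (-(1 / 100) : ℝ) := by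
        rw [← Real.rpow_add hP0]
        norm_num
      have h7 : 100 * (Ct * (N.divisors.card : ℝ)) * P ^ (-(1 / 4) : ℝ) ≤ P ^ (-(1 / 100) : ℝ) := by
        rw [← h6]
        exact mul_le_mul_of_nonneg_right h5 (Real.rpow_nonneg hP0.le _)
      linarith
    have hCP : Cj * (1 / P) ≤ m ^ 2 / 100 := by
      have h2 : 100 * Cj ≤ P ^ (99 / 100 : ℝ) := by
        calc 100 * Cj ≤ (X : ℝ) ^ (δ₀ / 4) := hA4
          _ = ((X : ℝ) ^ (δ₀ / 2)) ^ (1 / 2 : ℝ) := by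
              rw [← Real.rpow_mul hXpos.le]
              congr 1
              ring
          _ ≤ P ^ (1 / 2 : ℝ) := Real.rpow_le_rpow (Real.rpow_nonneg hXpos.le _) hP1 (by norm_num)
          _ ≤ P ^ (99 / 100 : ℝ) := Real.rpow_le_rpow_of_exponent_le hP (by norm_num)
      have h3 : P ^ (99 / 100 : ℝ) * (1 / P) = P ^ (-(1 / 100) : ℝ) := by
        rw [one_div, ← Real.rpow_neg_one, ← Real.rpow_add hP0]
        norm_num
      have h4 : 100 * Cj * (1 / P) ≤ P ^ (-(1 / 100) : ℝ) := by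
        rw [← h3]
        exact mul_le_mul_of_nonneg_right h2 (by positivity)
      linarith
    have h2 : 0 < m ^ 2 := by positivity
    have h3 : (H : ℝ) * SS N * (m ^ 2 / 10 - Ct * (N.divisors.card : ℝ) * P ^ (-(1 / 4) : ℝ)) -
        Cj * SS N * H * (ε' + 1 / P) = (H : ℝ) * SS N *
          (m ^ 2 / 10 - Ct * (N.divisors.card : ℝ) * P ^ (-(1 / 4) : ℝ) - Cj * ε' - Cj * (1 / P)) := by
      ring
    have h4 : (H : ℝ) * SS N * (7 / 100 * m ^ 2) ≤ (H : ℝ) * SS N *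
          (m ^ 2 / 10 - Ct * (N.divisors.card : ℝ) * P ^ (-(1 / 4) : ℝ) - Cj * ε' - Cj * (1 / P)) := by
      refine mul_le_mul_of_nonneg_left ?_ (by positivity)
      linarith
    have h5 : (H : ℝ) * (7 / 100 * m ^ 2) ≤ (H : ℝ) * SS N * (7 / 100 * m ^ 2) := by
      refine mul_le_mul_of_nonneg_right ?_ (by positivity)
      exact le_mul_of_one_le_right hHpos.le hSS
    have h6 : 0 < (H : ℝ) * m ^ 2 := by positivity
    have h7 : I j N ≤ m ^ 2 * H / 30 := hIN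
    simp only [hI] at h7
    linarith
  -- the bad blocks
  have hcardbad : (((J.filter bad).card : ℕ) : ℝ) ≤ P ^ 2 * (X : ℝ) ^ (1 / 2 - η / 250) := by
    have hx0 : 0 ≤ (X : ℝ) ^ (1 / 2 - η / 250) := Real.rpow_nonneg hXpos.le _
    have h1 : J.filter bad ⊆ (PS P).biUnion (fun c => (range X).filter (fun j => j * Nat.sqrt X < X ∧
        Cg * √(Nat.sqrt X : ℝ) * (ZS o c (2 * η) X (√(X : ℝ)) + (X : ℝ) ^ (-(η / 4000))) <
          nrm (Eg o c (X + j * Nat.sqrt X) (Nat.sqrt X)) (P / Nat.sqrt X))) := by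
      intro j hj'
      rw [Finset.mem_filter, hJ, Finset.mem_filter] at hj'
      obtain ⟨⟨hjr, hjH⟩, c, hc, hcb⟩ := hj'
      rw [Finset.mem_biUnion]
      refine ⟨c, hc, ?_⟩
      rw [Finset.mem_filter]
      refine ⟨hjr, hjH, ?_⟩
      rw [← hH]
      calc Cg * √(H : ℝ) * (ZS o c (2 * η) X (√(X : ℝ)) + (X : ℝ) ^ (-(η / 4000))) =
            √(H : ℝ) * b c := by rw [hb]; ring
        _ < _ := hcb
    have h2 := (Finset.card_le_card h1).trans Finset.card_biUnion_le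
    have h2R : (((J.filter bad).card : ℕ) : ℝ) ≤ ((∑ c ∈ PS P,
        ((range X).filter (fun j => j * Nat.sqrt X < X ∧
        Cg * √(Nat.sqrt X : ℝ) * (ZS o c (2 * η) X (√(X : ℝ)) + (X : ℝ) ^ (-(η / 4000))) <
          nrm (Eg o c (X + j * Nat.sqrt X) (Nat.sqrt X)) (P / Nat.sqrt X))).card : ℕ) : ℝ) := by
      exact_mod_cast h2
    refine h2R.trans ?_
    rw [Nat.cast_sum]
    calc _ ≤ ∑ _c ∈ PS P, (X : ℝ) ^ (1 / 2 - η / 250) := by
            refine Finset.sum_le_sum fun c hc => ?_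
            have := hg X o c P hXg' hoO (hcond c hc) hP hPη
            exact this
      _ = ((PS P).card : ℝ) * (X : ℝ) ^ (1 / 2 - η / 250) := by rw [Finset.sum_const, nsmul_eq_mul]
      _ ≤ P ^ 2 * (X : ℝ) ^ (1 / 2 - η / 250) := mul_le_mul_of_nonneg_right hcPS hx0
  -- the minor arcs
  set W : ℝ := 3600 * Cm * √(X : ℝ) * Real.log X ^ 14 * P ^ (-(49 / 50) : ℝ) with hW
  have hminor : ∀ j ∈ J, ((((Ioc (X + j * H) (X + j * H + H)).filter
      (fun N => m ^ 2 * H / 30 < I j N)).card : ℕ) : ℝ) ≤ W := by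
    intro j hjJ
    rw [hJ, Finset.mem_filter] at hjJ
    have hP100 : P ≤ (X : ℝ) ^ (1 / 100 : ℝ) :=
      hP2.trans (Real.rpow_le_rpow_of_exponent_le hX1' (by linarith))
    have h1 := hm X j P hXm' hP hP100 hjJ.2
    · rw [← hH] at h1
      have h2 := cheb_FNC (Ioc (X + j * H) (X + j * H + H)) (I j) (m ^ 2 * H / 30) _ (by positivity) h1
      set K := ((((Ioc (X + j * H) (X + j * H + H)).filter
        (fun N => m ^ 2 * H / 30 < I j N)).card : ℕ) : ℝ) with hK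
      have hK0 : 0 ≤ K := Nat.cast_nonneg _
      have h3 : P ^ (-(1 / 50) : ℝ) * X / 3600 ≤ (m ^ 2 * H / 30) ^ 2 := by
        have h4 : P ^ (-(1 / 50) : ℝ) ≤ m ^ 4 := by
          calc P ^ (-(1 / 50) : ℝ) = (P ^ (-(1 / 100) : ℝ)) ^ 2 := by
                rw [← Real.rpow_natCast, ← Real.rpow_mul hP0.le]
                norm_num
            _ ≤ (m ^ 2) ^ 2 := pow_le_pow_left₀ (Real.rpow_nonneg hP0.le _) hmP 2
            _ = m ^ 4 := by ring
        have h5 : (X : ℝ) / 4 ≤ (H : ℝ) ^ 2 := by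
          have e1 : √(X : ℝ) / 2 * (√(X : ℝ) / 2) = X / 4 := by
            rw [show √(X : ℝ) / 2 * (√(X : ℝ) / 2) = (√(X : ℝ) * √(X : ℝ)) / 4 by ring, hss]
          have e2 := mul_self_le_mul_self (by positivity : 0 ≤ √(X : ℝ) / 2) hHlow
          rw [e1] at e2
          rw [sq]
          exact e2
        calc P ^ (-(1 / 50) : ℝ) * X / 3600 = P ^ (-(1 / 50) : ℝ) * (X / 4) / 900 := by ring
          _ ≤ m ^ 4 * (H : ℝ) ^ 2 / 900 := by
              refine div_le_div_of_nonneg_right ?_ (by norm_num)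
              exact mul_le_mul h4 h5 (by positivity) (by positivity)
          _ = (m ^ 2 * H / 30) ^ 2 := by ring
      have h6 : K * (P ^ (-(1 / 50) : ℝ) * X / 3600) ≤
          Cm * (X : ℝ) ^ (3 / 2 : ℝ) / P * Real.log X ^ 14 :=
        (mul_le_mul_of_nonneg_left h3 hK0).trans h2
      have hPp : 0 < P ^ (-(1 / 50) : ℝ) := Real.rpow_pos_of_pos hP0 _
      have h7 : W * (P ^ (-(1 / 50) : ℝ) * X / 3600) =
          Cm * (X : ℝ) ^ (3 / 2 : ℝ) / P * Real.log X ^ 14 := by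
        have h8 : P ^ (-(49 / 50) : ℝ) * P ^ (-(1 / 50) : ℝ) = P⁻¹ := by
          rw [← Real.rpow_add hP0, ← Real.rpow_neg_one]
          norm_num
        have h9 : √(X : ℝ) * X = (X : ℝ) ^ (3 / 2 : ℝ) := by
          rw [Real.sqrt_eq_rpow]
          nth_rewrite 2 [← Real.rpow_one (X : ℝ)]
          rw [← Real.rpow_add hXpos]
          norm_num
        calc W * (P ^ (-(1 / 50) : ℝ) * X / 3600) = Cm * (√(X : ℝ) * X) *
              (P ^ (-(49 / 50) : ℝ) * P ^ (-(1 / 50) : ℝ)) * Real.log X ^ 14 := by rw [hW]; ring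
          _ = _ := by rw [h8, h9]; ring
      rw [← h7] at h6
      exact le_of_mul_le_mul_right h6 (by positivity)
  have hcardJ : ((J.card : ℕ) : ℝ) ≤ 3 * √(X : ℝ) := by
    have h1 : J ⊆ range (X / H + 1) := by
      intro j hj'
      rw [hJ, Finset.mem_filter] at hj'
      rw [Finset.mem_range, Nat.lt_succ_iff, Nat.le_div_iff_mul_le hH1]
      exact hj'.2.le
    have h2 : J.card ≤ X / H + 1 := by
      have := Finset.card_le_card h1
      rwa [Finset.card_range] at this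
    have h3 : ((X / H : ℕ) : ℝ) ≤ 2 * √(X : ℝ) := by
      refine (Nat.cast_div_le).trans ?_
      rw [div_le_iff₀ hHpos]
      have e1 : √(X : ℝ) ≤ 2 * H := by linarith
      have e2 := mul_le_mul_of_nonneg_left e1 (Real.sqrt_nonneg (X : ℝ))
      rw [hss] at e2
      linarith
    calc ((J.card : ℕ) : ℝ) ≤ ((X / H : ℕ) : ℝ) + 1 := by exact_mod_cast h2
      _ ≤ 3 * √(X : ℝ) := by linarith
  -- covering
  have hcov : ∀ N ∈ Ioc X (2 * X), (Even N ∧ ¬ ∃ p : ℕ, p.Prime ∧ (N - p).Prime ∧ p < N ∧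
      Nat.sqrt X * 2 < p ∧ p ≤ 3 * Nat.sqrt X) →
      N ∈ (J.filter bad).biUnion (fun j => Ioc (X + j * H) (X + j * H + H)) ∪
        J.biUnion (fun j => (Ioc (X + j * H) (X + j * H + H)).filter
          (fun N => m ^ 2 * H / 30 < I j N)) := by
    intro N hN hNE
    rw [Finset.mem_Ioc] at hN
    set j : ℕ := (N - X - 1) / H with hjdef
    have hj1 : j * H ≤ N - X - 1 := Nat.div_mul_le_self _ _
    have hj2 : N - X - 1 < j * H + H := by
      have := Nat.lt_div_mul_add (a := N - X - 1) (b := H) (by omega)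
      rw [← hjdef] at this
      exact this
    have hjJ : j ∈ J := by
      rw [hJ, Finset.mem_filter, Finset.mem_range]
      have hjH : j * H < X := by omega
      refine ⟨?_, hjH⟩
      calc j = j * 1 := (mul_one j).symm
        _ ≤ j * H := Nat.mul_le_mul_left j hH1
        _ < X := hjH
    have hNj : N ∈ Ioc (X + j * H) (X + j * H + H) := by
      rw [Finset.mem_Ioc]
      omega
    rw [Finset.mem_union, Finset.mem_biUnion, Finset.mem_biUnion]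
    by_cases hb' : bad j
    · exact Or.inl ⟨j, Finset.mem_filter.mpr ⟨hjJ, hb'⟩, hNj⟩
    · right
      refine ⟨j, hjJ, Finset.mem_filter.mpr ⟨hNj, ?_⟩⟩
      by_contra hI'
      have hpos := hgood j hjJ hb' N hNj hN.2 hNE.1 (not_lt.mp hI')
      obtain ⟨n, hn, hn0⟩ := Finset.exists_ne_zero_of_sum_ne_zero hpos.ne'
      rw [Finset.mem_Ioc] at hn
      have h1 : th n ≠ 0 := left_ne_zero_of_mul hn0
      have h2 : th (N - n) ≠ 0 := right_ne_zero_of_mul hn0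
      have h3 : n.Prime := by
        by_contra h
        exact h1 (by unfold th; rw [if_neg h])
      have h4 : (N - n).Prime := by
        by_contra h
        exact h2 (by unfold th; rw [if_neg h])
      refine hNE.2 ⟨n, h3, h4, ?_, ?_, ?_⟩
      · have := h4.pos
        omega
      · rw [← hH]
        omega
      · rw [← hH]
        omega
  have hsub : (Ioc X (2 * X)).filter (fun N => Even N ∧ ¬ ∃ p : ℕ, p.Prime ∧ (N - p).Prime ∧ p < N ∧
      Nat.sqrt X * 2 < p ∧ p ≤ 3 * Nat.sqrt X) ⊆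
      (J.filter bad).biUnion (fun j => Ioc (X + j * H) (X + j * H + H)) ∪
        J.biUnion (fun j => (Ioc (X + j * H) (X + j * H + H)).filter
          (fun N => m ^ 2 * H / 30 < I j N)) := by
    intro N hN
    rw [Finset.mem_filter] at hN
    exact hcov N hN.1 hN.2
  have hc1 : ((((J.filter bad).biUnion (fun j => Ioc (X + j * H) (X + j * H + H))).card : ℕ) : ℝ) ≤
      P ^ 2 * (X : ℝ) ^ (1 / 2 - η / 250) * √(X : ℝ) := by
    calc ((((J.filter bad).biUnion (fun j => Ioc (X + j * H) (X + j * H + H))).card : ℕ) : ℝ) ≤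
          ((∑ j ∈ J.filter bad, (Ioc (X + j * H) (X + j * H + H)).card : ℕ) : ℝ) := by
            exact_mod_cast Finset.card_biUnion_le
      _ = (((J.filter bad).card : ℕ) : ℝ) * H := by
            simp only [Nat.card_Ioc, add_tsub_cancel_left, Finset.sum_const, smul_eq_mul]
            push_cast
            rfl
      _ ≤ P ^ 2 * (X : ℝ) ^ (1 / 2 - η / 250) * √(X : ℝ) :=
            mul_le_mul hcardbad hHup hHpos.le (by positivity)
  have hW0 : 0 ≤ W := by positivity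
  have hc2 : (((J.biUnion (fun j => (Ioc (X + j * H) (X + j * H + H)).filter
          (fun N => m ^ 2 * H / 30 < I j N))).card : ℕ) : ℝ) ≤ 3 * √(X : ℝ) * W := by
    calc (((J.biUnion (fun j => (Ioc (X + j * H) (X + j * H + H)).filter
          (fun N => m ^ 2 * H / 30 < I j N))).card : ℕ) : ℝ) ≤
          ((∑ j ∈ J, ((Ioc (X + j * H) (X + j * H + H)).filter
          (fun N => m ^ 2 * H / 30 < I j N)).card : ℕ) : ℝ) := by
            exact_mod_cast Finset.card_biUnion_le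
      _ = ∑ j ∈ J, ((((Ioc (X + j * H) (X + j * H + H)).filter
          (fun N => m ^ 2 * H / 30 < I j N)).card : ℕ) : ℝ) := by push_cast; rfl
      _ ≤ ∑ _j ∈ J, W := Finset.sum_le_sum hminor
      _ = ((J.card : ℕ) : ℝ) * W := by rw [Finset.sum_const, nsmul_eq_mul]
      _ ≤ 3 * √(X : ℝ) * W := mul_le_mul_of_nonneg_right hcardJ hW0
  have hd1 : P ^ 2 * (X : ℝ) ^ (1 / 2 - η / 250) * √(X : ℝ) ≤ (X : ℝ) ^ (1 - 2 * d) := by
    calc P ^ 2 * (X : ℝ) ^ (1 / 2 - η / 250) * √(X : ℝ) ≤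
          ((X : ℝ) ^ (η / 100000)) ^ 2 * (X : ℝ) ^ (1 / 2 - η / 250) * √(X : ℝ) := by
            refine mul_le_mul_of_nonneg_right (mul_le_mul_of_nonneg_right
              (pow_le_pow_left₀ hP0.le hPη 2) (Real.rpow_nonneg hXpos.le _)) (Real.sqrt_nonneg _)
      _ = (X : ℝ) ^ (2 * (η / 100000) + (1 / 2 - η / 250) + 1 / 2) := by
            rw [Real.rpow_add hXpos, Real.rpow_add hXpos, ← Real.sqrt_eq_rpow, ← Real.rpow_natCast,
              ← Real.rpow_mul hXpos.le]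
            congr 3
            push_cast
            ring
      _ ≤ (X : ℝ) ^ (1 - 2 * d) := by
            refine Real.rpow_le_rpow_of_exponent_le hX1' ?_
            have : d ≤ η / 600 := min_le_left _ _
            linarith
  have hd2 : 3 * √(X : ℝ) * W ≤ (X : ℝ) ^ (1 - 2 * d) := by
    have h1 : P ^ (-(49 / 50) : ℝ) ≤ (X : ℝ) ^ (-(49 / 100 * δ₀)) := by
      calc P ^ (-(49 / 50) : ℝ) ≤ ((X : ℝ) ^ (δ₀ / 2)) ^ (-(49 / 50) : ℝ) :=
            Real.rpow_le_rpow_of_nonpos (Real.rpow_pos_of_pos hXpos _) hP1 (by norm_num)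
        _ = (X : ℝ) ^ (-(49 / 100 * δ₀)) := by
            rw [← Real.rpow_mul hXpos.le]
            congr 1
            ring
    calc 3 * √(X : ℝ) * W = (10800 * Cm * Real.log X ^ 14) * (√(X : ℝ) * √(X : ℝ)) *
          P ^ (-(49 / 50) : ℝ) := by rw [hW]; ring
      _ = (10800 * Cm * Real.log X ^ 14) * (X : ℝ) * P ^ (-(49 / 50) : ℝ) := by rw [hss]
      _ ≤ (X : ℝ) ^ (δ₀ / 5) * (X : ℝ) * (X : ℝ) ^ (-(49 / 100 * δ₀)) := by
            refine mul_le_mul (mul_le_mul_of_nonneg_right hA6 hXpos.le) h1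
              (Real.rpow_nonneg hP0.le _) (by positivity)
      _ = (X : ℝ) ^ (δ₀ / 5 + 1 + -(49 / 100 * δ₀)) := by
            rw [Real.rpow_add hXpos, Real.rpow_add hXpos, Real.rpow_one]
      _ ≤ (X : ℝ) ^ (1 - 2 * d) := by
            refine Real.rpow_le_rpow_of_exponent_le hX1' ?_
            have : d ≤ δ₀ / 8 := min_le_right _ _
            linarith
  have hfin : 2 * (X : ℝ) ^ (1 - 2 * d) ≤ (X : ℝ) ^ (1 - d) := by
    calc 2 * (X : ℝ) ^ (1 - 2 * d) ≤ (X : ℝ) ^ d * (X : ℝ) ^ (1 - 2 * d) :=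
          mul_le_mul_of_nonneg_right hA7 (Real.rpow_nonneg hXpos.le _)
      _ = (X : ℝ) ^ (1 - d) := by
          rw [← Real.rpow_add hXpos]
          congr 1
          ring
  have hcard := (Finset.card_le_card hsub).trans (Finset.card_union_le _ _)
  have hcardR : ((((Ioc X (2 * X)).filter (fun N => Even N ∧ ¬ ∃ p : ℕ, p.Prime ∧ (N - p).Prime ∧
      p < N ∧ Nat.sqrt X * 2 < p ∧ p ≤ 3 * Nat.sqrt X)).card : ℕ) : ℝ) ≤
      ((((J.filter bad).biUnion (fun j => Ioc (X + j * H) (X + j * H + H))).card : ℕ) : ℝ) +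
      (((J.biUnion (fun j => (Ioc (X + j * H) (X + j * H + H)).filter
          (fun N => m ^ 2 * H / 30 < I j N))).card : ℕ) : ℝ) := by exact_mod_cast hcard
  have hfinal : ((((Ioc X (2 * X)).filter (fun N => Even N ∧ ¬ ∃ p : ℕ, p.Prime ∧ (N - p).Prime ∧
      p < N ∧ Nat.sqrt X * 2 < p ∧ p ≤ 3 * Nat.sqrt X)).card : ℕ) : ℝ) ≤ (X : ℝ) ^ (1 - d) := by
    linarith
  exact hfinal

end Pool.Agent.Helper45.MV
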